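import Pool.Agent.U610.PC.Stm

/-!
# Project PC (helper610), package FACT (helper943)
-/

set_option autoImplicit false

namespace Pool.Agent.U943.PC

open Polynomial Pool.Agent.U610.PC

theorem norm_int_one {p : ℕ} [Fact p.Prime] {m : ℤ} (hm : m ≠ 0) (h : m.natAbs < p) :
    ‖(m : ℤ_[p])‖ = 1 := by
  refine le_antisymm (PadicInt.norm_le_one _) ?_
  by_contra hlt
  rw [not_le, PadicInt.norm_int_lt_one_iff_dvd] at hlt
  have h1 : p ∣ m.natAbs := Int.natCast_dvd.1 hlt
  exact absurd (Nat.le_of_dvd (Int.natAbs_pos.2 hm) h1) (not_le.2 h)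

theorem q_mul (A B : ℤ[X]) : q (A * B) = q A * q B := Polynomial.map_mul _

theorem q_pow (A : ℤ[X]) (n : ℕ) : q (A ^ n) = q A ^ n := Polynomial.map_pow _ _

theorem q_C (c : ℤ) : q (C c) = C (c : ℚ) := by
  rw [q, Polynomial.map_C, eq_intCast]

/-- one polynomial -/
theorem fact_one (D : ℤ[X]) : D ≠ 0 → ∃ (N : ℕ) (S : Finset ℤ[X]),
    (∀ P ∈ S, Irreducible (q P)) ∧ ∀ (p : ℕ) [Fact p.Prime], N < p → ∀ x : ℤ_[p],
      ‖(aeval x D : ℤ_[p])‖ = 1 ∨ ∃ P ∈ S, ‖(aeval x P : ℤ_[p])‖ < 1 := by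
  classical
  refine WfDvdMonoid.induction_on_irreducible D ?_ ?_ ?_
  · intro h; exact absurd rfl h
  · intro u hu _
    refine ⟨0, ∅, fun P hP => absurd hP (Finset.notMem_empty P), fun p hp _ x => Or.inl ?_⟩
    exact PadicInt.isUnit_iff.1 (hu.map (aeval x))
  · intro a i ha hi ih _
    obtain ⟨N, S, hS, hN⟩ := ih ha
    by_cases hdeg : i.natDegree = 0
    · obtain ⟨m, hm⟩ : ∃ m : ℤ, i = C m := ⟨_, eq_C_of_natDegree_eq_zero hdeg⟩
      have hm0 : m ≠ 0 := by
        intro h
        rw [h, C_0] at hm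
        exact hi.ne_zero hm
      refine ⟨max N m.natAbs, S, hS, fun p hp hlt x => ?_⟩
      rcases hN p (lt_of_le_of_lt (le_max_left _ _) hlt) x with h | h
      · left
        rw [map_mul, norm_mul, h, mul_one, hm, aeval_C, eq_intCast]
        exact norm_int_one hm0 (lt_of_le_of_lt (le_max_right _ _) hlt)
      · exact Or.inr h
    · have hirr : Irreducible (q i) :=
        (Polynomial.IsPrimitive.Int.irreducible_iff_irreducible_map_cast (hi.isPrimitive hdeg)).1 hi
      refine ⟨N, insert i S, ?_, fun p hp hlt x => ?_⟩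
      · intro P hP
        rcases Finset.mem_insert.1 hP with h | h
        · rw [h]; exact hirr
        · exact hS P h
      · rcases hN p hlt x with h | ⟨P, hP, h⟩
        · rcases (PadicInt.norm_le_one (aeval x i : ℤ_[p])).lt_or_eq with h1 | h1
          · exact Or.inr ⟨i, Finset.mem_insert_self _ _, h1⟩
          · left
            rw [map_mul, norm_mul, h, h1, one_mul]
        · exact Or.inr ⟨P, Finset.mem_insert_of_mem hP, h⟩

/-- splitting off the powers of `P` in one polynomial -/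
theorem split_one (D P : ℤ[X]) (hD : D ≠ 0) (hP : Irreducible (q P)) :
    ∃ (b : ℤ) (e : ℕ) (R : ℤ[X]), b ≠ 0 ∧ C b * D = P ^ e * R ∧ IsCoprime (q P) (q R) := by
  have hinj : Function.Injective (Polynomial.map (Int.castRingHom ℚ)) :=
    Polynomial.map_injective _ Int.cast_injective
  have hqD : q D ≠ 0 := by
    intro h
    exact hD (hinj (by rw [Polynomial.map_zero]; exact h))
  obtain ⟨e, r, hr, hDe⟩ := WfDvdMonoid.max_power_factor hqD hP
  obtain ⟨b, hbm, hb⟩ := IsLocalization.integerNormalization_spec (nonZeroDivisors ℤ) r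
  have hb0 : b ≠ 0 := nonZeroDivisors.ne_zero hbm
  obtain ⟨R, hR⟩ : ∃ R : ℤ[X], R = IsLocalization.integerNormalization (nonZeroDivisors ℤ) r :=
    ⟨_, rfl⟩
  have hqR : q R = C (b : ℚ) * r := by
    have h1 : q R = (IsLocalization.integerNormalization (nonZeroDivisors ℤ) r).map
        (algebraMap ℤ ℚ) := by rw [hR]; rfl
    rw [h1, hb, ← smul_eq_C_mul]
    exact (Int.cast_smul_eq_zsmul ℚ _ _).symm
  refine ⟨b, e, R, hb0, hinj ?_, ?_⟩
  · change q (C b * D) = q (P ^ e * R)
    rw [q_mul, q_mul, q_pow, q_C, hDe, hqR]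
    ring
  · rw [hqR]
    have hu : IsUnit (C (b : ℚ) : ℚ[X]) :=
      Polynomial.isUnit_C.2 (isUnit_iff_ne_zero.2 (Int.cast_ne_zero.2 hb0))
    exact (isCoprime_mul_unit_left_right hu (q P) r).2 (hP.coprime_iff_not_dvd.2 hr)

theorem t_FACT : S_FACT := by
  classical
  refine ⟨fun n D hD => ?_, fun n D P hD hP => ?_⟩
  · choose N S hS hN using fun i => fact_one (D i) (hD i)
    refine ⟨∑ i, N i, Finset.univ.biUnion S, ?_, fun p hp hlt x => ?_⟩
    · intro P hP
      obtain ⟨i, -, hi⟩ := Finset.mem_biUnion.1 hP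
      exact hS i P hi
    · by_cases h : ∀ i, ‖(aeval x (D i) : ℤ_[p])‖ = 1
      · exact Or.inl h
      · right
        push Not at h
        obtain ⟨i, hi⟩ := h
        have hle : N i ≤ ∑ i, N i :=
          Finset.single_le_sum (f := N) (fun _ _ => Nat.zero_le _) (Finset.mem_univ i)
        rcases hN i p (lt_of_le_of_lt hle hlt) x with h1 | ⟨P, hP, h1⟩
        · exact absurd h1 hi
        · exact ⟨P, Finset.mem_biUnion.2 ⟨i, Finset.mem_univ i, hP⟩, h1⟩
  · choose b e R hb hR hco using fun i => split_one (D i) P (hD i) hP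
    obtain ⟨c, hc⟩ : ∃ c : ℤ, c = ∏ i, b i := ⟨_, rfl⟩
    have hc0 : c ≠ 0 := by
      rw [hc]; exact Finset.prod_ne_zero_iff.2 fun i _ => hb i
    have hdvd : ∀ i, b i ∣ c := fun i => by
      rw [hc]; exact Finset.dvd_prod_of_mem b (Finset.mem_univ i)
    choose k hk using hdvd
    have hk0 : ∀ i, k i ≠ 0 := by
      intro i h
      have := hk i
      rw [h, mul_zero] at this
      exact hc0 this
    refine ⟨c, e, fun i => C (c * k i) * R i, hc0, fun i => ⟨?_, ?_⟩⟩
    · have h1 : C (c ^ 2) * D i = C (c * k i) * (C (b i) * D i) := by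
        rw [← mul_assoc, ← C_mul]
        congr 2
        rw [sq]
        nth_rw 2 [hk i]
        ring
      rw [h1, hR i]
      ring
    · change IsCoprime (q P) (q (C (c * k i) * R i))
      rw [q_mul, q_C]
      have hu : IsUnit (C (((c * k i : ℤ) : ℚ)) : ℚ[X]) :=
        Polynomial.isUnit_C.2 (isUnit_iff_ne_zero.2 (Int.cast_ne_zero.2 (mul_ne_zero hc0 (hk0 i))))
      exact (isCoprime_mul_unit_left_right hu (q P) (q (R i))).2 (hco i)

end Pool.Agent.U943.PC
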